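import Pool.Agent.Lib.H77W.F5

/-!
# Vectors of consecutive prime gaps up to `x` at all scales

Let `F x = log x (log log x)^2 (log log log log x) / (log log log x)^2`. We prove: for every
`k ≥ 1` and `ε > 0` there are `c, C > 0` such that for all large `x` and for ALL real `H` with
`C log x ≤ H ≤ F x` at least `c H^k` of the vectors `(h 1, ..., h k)` of natural numbers with
`h 1 + ... + h k ≤ H` are vectors of `k` consecutive gaps between primes,
`p (n+i) - p (n+i-1) = h i` for `i = 1, ..., k`, for at least `x^(1-ε)` indices `n` with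
`p (n+k) ≤ x`. (All these vectors are about `H^k / k!` many, so this is a positive proportion of
them, uniformly in `H`.)

Method (`Pool/Agent/Lib/H77W/PROOF.md`, on top of `H77V`, `H5C` and `H92V`): a window of length `H`
with `s` survivors of a sieve modulo the primes `≤ y`, `log x/log log x ≪ s ≪ log x`
(`y ≍ log x`, residue class `0` and `s ≍ H/log log x` for short windows; the Erdős-Rankin sieve with
`y ≍ s`, `log log x ≪ log y`, for long windows); a sieve weight `L(t)^2` on the `t ≤ T` which makes
primes rarer at all the places `a + h + M t`, `h` a survivor, just so that the expected number of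
primes in the window is bounded and at least `4 (k + 1)`; an upper bound of the right order for
the mass of the `t` with primes at `k + 1` given places; and a bound of the right order for the
`(k + 1)`-st moment of the number of pairs of survivors with a given difference, so that the
vector of the differences of the first `k + 1` primes of the window is spread over `≫ H^k` values.
-/

open Filter

namespace Pool.Agent.Results.MP_f9960f_nt.AllScales

/-- `p n` is the `n`-th prime number, numbered from `0`: `p 0 = 2`, `p 1 = 3`, ... -/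
noncomputable def p (n : ℕ) : ℕ := Nat.nth Nat.Prime n

/-- `F x = log x (log log x)^2 (log log log log x) / (log log log x)^2`. -/
noncomputable def F (x : ℝ) : ℝ :=
  Real.log x * (Real.log (Real.log x)) ^ 2 *
    Real.log (Real.log (Real.log (Real.log x))) / (Real.log (Real.log (Real.log x))) ^ 2

/-- `At x h`, for a vector `h` with coordinates `h i` (`i = 0, ..., k - 1`), is the set of all `n`
such that `p (n + k) ≤ x` and `p (n + i + 1) = p (n + i) + h i` for all `i`. -/
def At {k : ℕ} (x : ℝ) (h : Fin k → ℕ) : Set ℕ :=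
  {n : ℕ | (p (n + k) : ℝ) ≤ x ∧ ∀ i : Fin k, p (n + i + 1) = p (n + i) + h i}

/-- The set `At x h` is finite. -/
theorem finite_At {k : ℕ} (x : ℝ) (h : Fin k → ℕ) : (At x h).Finite := by
  have hmono : StrictMono p := Nat.nth_strictMono Nat.infinite_setOfPred_prime
  refine (Set.finite_Iic ⌊x⌋₊).subset fun n hn => ?_
  have h1 : p (n + k) ≤ ⌊x⌋₊ := Nat.le_floor hn.1
  have h2 : n + k ≤ p (n + k) := hmono.le_apply
  exact Set.mem_Iic.mpr (by omega)

/-- The set of the vectors `h` with `∑ i, h i ≤ H` for which `At x h` has at least `x^a`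
elements is finite. -/
theorem finite_vectors {k : ℕ} (x a H : ℝ) :
    {h : Fin k → ℕ | ((∑ i, h i : ℕ) : ℝ) ≤ H ∧ x ^ a ≤ ((At x h).ncard : ℝ)}.Finite := by
  refine Set.Finite.subset (Finset.finite_toSet
    (Fintype.piFinset (fun _ : Fin k => Finset.Iic ⌊H⌋₊))) ?_
  intro h hh
  rw [Finset.mem_coe, Fintype.mem_piFinset]
  intro i
  rw [Finset.mem_Iic]
  apply Nat.le_floor
  refine le_trans ?_ hh.1
  exact_mod_cast Finset.single_le_sum (f := h) (fun _ _ => Nat.zero_le _) (Finset.mem_univ i)

/-- For every `k ≥ 1` and `ε > 0` there are `c, C > 0` such that for all sufficiently large `x` and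
all real `H` with `C log x ≤ H ≤ F x` at least `c H^k` of the vectors `h : Fin k → ℕ` with
`∑ i, h i ≤ H` have the property that `p (n + i + 1) - p (n + i) = h i` (`i = 0, ..., k - 1`) for at
least `x^(1-ε)` indices `n` with `p (n + k) ≤ x`. -/
theorem result (k : ℕ) (hk : 1 ≤ k) (ε : ℝ) (hε : 0 < ε) : ∃ c C : ℝ, 0 < c ∧ 0 < C ∧
    ∀ᶠ x : ℝ in atTop, ∀ H : ℝ, C * Real.log x ≤ H → H ≤ F x → c * H ^ k ≤
      (Set.ncard {h : Fin k → ℕ | ((∑ i, h i : ℕ) : ℝ) ≤ H ∧
        x ^ (1 - ε) ≤ ((At x h).ncard : ℝ)} : ℝ) :=
  Pool.Agent.Lib.H77W.all_scales k hk ε hε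

end Pool.Agent.Results.MP_f9960f_nt.AllScales
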