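import Pool.Agent.Lib.H5C.FD2

/-!
# Chains of large gaps between consecutive primes

Let `F x = log x (log log x)^2 (log log log log x) / (log log log x)^2`. We prove: for every
`ε > 0` there is `c > 0` such that for all large `x` and ALL `1 ≤ k ≤ c log log x` there are at
least `x^(1-ε)` blocks of `k` consecutive prime gaps below `x`, all of them at least `(c/k^2) F x`.

Method: the suppression theorem (dual form of the Maynard-Tao sieve,
`Pool.Agent.Lib.H56G.suppress`) with weights `θ b`, `θ` close to `1`, so that each of the
`≍ log x` given linear forms `b + M t` is prime with probability `≍ k/log x` under the weight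
`L(t)^2`; first and second moments of the number of prime values and of the number of close pairs of
prime values; combined with the Erdős-Rankin choice of residues and with the distribution of primes
in progressions to moduli with a factor among the sieve primes.
-/

open Filter

namespace Pool.Agent.Results.MP_f9960f_nt.Chains

/-- `p n` is the `n`-th prime number, numbered from `0`: `p 0 = 2`, `p 1 = 3`, ... -/
noncomputable def p (n : ℕ) : ℕ := Nat.nth Nat.Prime n

/-- The size of the gaps, without the constant:
`F x = log x (log log x)^2 (log log log log x) / (log log log x)^2`. -/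
noncomputable def F (x : ℝ) : ℝ :=
  Real.log x * (Real.log (Real.log x)) ^ 2 *
    Real.log (Real.log (Real.log (Real.log x))) / (Real.log (Real.log (Real.log x))) ^ 2

/-- `Chain x k g` is the set of all `n` such that the `k + 1` consecutive primes
`p n < p (n+1) < ... < p (n+k)` are at most `x` and the `k` gaps between them are all at least
`g`. -/
def Chain (x : ℝ) (k : ℕ) (g : ℝ) : Set ℕ :=
  {n : ℕ | (p (n + k) : ℝ) ≤ x ∧ ∀ i < k, g ≤ (p (n + i + 1) : ℝ) - p (n + i)}

/-- The set `Chain x k g` is finite. -/
theorem finite_Chain (x : ℝ) (k : ℕ) (g : ℝ) : (Chain x k g).Finite := by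
  have hmono : StrictMono p := Nat.nth_strictMono Nat.infinite_setOfPred_prime
  refine (Set.finite_Iic ⌊x⌋₊).subset fun n hn => ?_
  have h1 : p (n + k) ≤ ⌊x⌋₊ := Nat.le_floor hn.1
  have h2 : n + k ≤ p (n + k) := hmono.le_apply
  exact Set.mem_Iic.mpr (by omega)

/-- For every `ε > 0` there is `c > 0` such that for all sufficiently large `x` and all natural
numbers `k` with `1 ≤ k ≤ c log log x`, at least `x^(1-ε)` numbers `n` satisfy `p (n+k) ≤ x` and
`p (n+i+1) - p (n+i) ≥ (c/k^2) F x` for all `0 ≤ i < k`. -/
theorem result : ∀ ε : ℝ, 0 < ε → ∃ c : ℝ, 0 < c ∧ ∀ᶠ x : ℝ in atTop, ∀ k : ℕ, 1 ≤ k →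
    (k : ℝ) ≤ c * Real.log (Real.log x) →
      x ^ (1 - ε) ≤ ((Chain x k (c / k ^ 2 * F x)).ncard : ℝ) := by
  intro ε hε
  obtain ⟨c, hc, x0, h⟩ := Pool.Agent.Lib.H5C.chains ε hε
  refine ⟨c, hc, ?_⟩
  filter_upwards [eventually_ge_atTop x0] with x hx k hk hk2
  exact h x hx k hk hk2

end Pool.Agent.Results.MP_f9960f_nt.Chains
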