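import Pool.Agent.Lib.H92G.R1

/-!
# Patterns of primes in windows of length `Λ log x`, in positive proportion

For every `k` and `δ > 0` there is `J0` such that for any `J ≥ J0` disjoint intervals
`(β_j, β_j + ε]` contained in `(0, Λ]`: for a positive proportion of the integers `n ≤ x` all
elements of the window `(n, n + Λ log x]` which are prime, or which have no prime factor `≤ x^δ`,
lie in the `J` intervals `n + (β_j log x, (β_j + ε) log x]`, at most one in each of them, and at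
least `k + 1` of them are primes.

Method (`Pool/Agent/Lib/H92G/PROOF.md`): a sieve weight on all elements of the window at once, a
product over prime scales of squares of truncated linear forms which suppresses the elements
outside the intervals and boosts those inside, with bounded second moment; primes in progressions
to the moduli of the weight by a mean value theorem for characters (level a small power of `x`), a
power of `log x` being gained at every character whose conductor has a prime factor in the sieve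
range.
-/

open Filter

namespace Pool.Agent.Results.MP_f9960f_nt.GapPatterns

/-- For every `k` and every real `δ > 0` there is `J0` such that for all `J ≥ J0`, all `ε, Λ > 0`
and all real `β_1, .., β_J` with `0 ≤ β_j`, `β_j + ε ≤ Λ` and `β_i + ε ≤ β_j` for `i < j` there is
`c > 0` such that, for all sufficiently large `x`, at least `c x` of the integers `n ≤ x` have the
following properties:
every integer `m ∈ (n, n + Λ log x]` which is prime or has no prime factor `≤ x^δ` is in one of the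
intervals `(n + β_j log x, n + (β_j + ε) log x]`; each of these intervals contains at most one such
`m`; and `(n, n + Λ log x]` contains at least `k + 1` primes (so at least `k + 1` of the `J`
intervals contain exactly one prime, and all other integers of these intervals have a prime factor
`≤ x^δ`). -/
theorem result (k : ℕ) (δ : ℝ) (hδ : 0 < δ) : ∃ J0 : ℕ, ∀ (J : ℕ) (β : Fin J → ℝ) (ε Λ : ℝ),
    J0 ≤ J → 0 < ε → (∀ j, 0 ≤ β j ∧ β j + ε ≤ Λ) → (∀ i j, i < j → β i + ε ≤ β j) →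
    ∃ c : ℝ, 0 < c ∧ ∀ᶠ x : ℝ in atTop,
      c * x ≤ (Set.ncard {n : ℕ | (n : ℝ) ≤ x ∧
        (∀ m : ℕ, n < m → (m : ℝ) ≤ n + Λ * Real.log x → (m.Prime ∨ x ^ δ < (m.minFac : ℝ)) →
          ∃ j, (n : ℝ) + β j * Real.log x < m ∧ (m : ℝ) ≤ n + (β j + ε) * Real.log x) ∧
        (∀ j, Set.ncard {m : ℕ | (m.Prime ∨ x ^ δ < (m.minFac : ℝ)) ∧
          (n : ℝ) + β j * Real.log x < m ∧ (m : ℝ) ≤ n + (β j + ε) * Real.log x} ≤ 1) ∧
        k + 1 ≤ Set.ncard {p : ℕ | p.Prime ∧ n < p ∧ (p : ℝ) ≤ n + Λ * Real.log x}} : ℝ) := by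
  classical
  obtain ⟨J0, hJ0, h⟩ := Pool.Agent.Lib.H92G.key_realR k δ hδ
  refine ⟨J0, fun J β ε Λ hJ hε h1 h2 => ?_⟩
  have hconf : Pool.Agent.Lib.H92G.Conf J β ε Λ :=
    ⟨hε, fun j => (h1 j).1, fun j => (h1 j).2, fun i j hij => h2 i j hij⟩
  obtain ⟨c, hc, x0, hx0⟩ := h J β ε Λ hJ hconf
  refine ⟨c, hc, ?_⟩
  have hΛ : 0 ≤ Λ := by
    have hJ1 : 0 < J := by omega
    have := (h1 ⟨0, hJ1⟩)
    linarith [this.1, this.2]
  filter_upwards [eventually_ge_atTop x0, eventually_ge_atTop 4] with x hx hx4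
  obtain ⟨s, hs, hcard, hgood⟩ := hx0 x hx
  refine hcard.trans ?_
  have hL : 0 ≤ Real.log x := Real.log_nonneg (by linarith)
  rw [← Set.ncard_coe_finset]
  have hfin : Set.Finite {n : ℕ | (n : ℝ) ≤ x ∧
        (∀ m : ℕ, n < m → (m : ℝ) ≤ n + Λ * Real.log x → (m.Prime ∨ x ^ δ < (m.minFac : ℝ)) →
          ∃ j, (n : ℝ) + β j * Real.log x < m ∧ (m : ℝ) ≤ n + (β j + ε) * Real.log x) ∧
        (∀ j, Set.ncard {m : ℕ | (m.Prime ∨ x ^ δ < (m.minFac : ℝ)) ∧
          (n : ℝ) + β j * Real.log x < m ∧ (m : ℝ) ≤ n + (β j + ε) * Real.log x} ≤ 1) ∧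
        k + 1 ≤ Set.ncard {p : ℕ | p.Prime ∧ n < p ∧ (p : ℝ) ≤ n + Λ * Real.log x}} := by
    apply (Set.finite_Iic ⌊x⌋₊).subset
    intro n hn
    exact Set.mem_Iic.mpr (Nat.le_floor hn.1)
  have hsub : (s : Set ℕ) ⊆ {n : ℕ | (n : ℝ) ≤ x ∧
        (∀ m : ℕ, n < m → (m : ℝ) ≤ n + Λ * Real.log x → (m.Prime ∨ x ^ δ < (m.minFac : ℝ)) →
          ∃ j, (n : ℝ) + β j * Real.log x < m ∧ (m : ℝ) ≤ n + (β j + ε) * Real.log x) ∧
        (∀ j, Set.ncard {m : ℕ | (m.Prime ∨ x ^ δ < (m.minFac : ℝ)) ∧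
          (n : ℝ) + β j * Real.log x < m ∧ (m : ℝ) ≤ n + (β j + ε) * Real.log x} ≤ 1) ∧
        k + 1 ≤ Set.ncard {p : ℕ | p.Prime ∧ n < p ∧ (p : ℝ) ≤ n + Λ * Real.log x}} := by
    intro n hn
    have hn' : n ∈ s := hn
    obtain ⟨g1, g2, g3⟩ := hgood n hn'
    have hnx := Finset.mem_Icc.mp (hs hn')
    refine ⟨(Nat.le_floor_iff (by linarith)).mp hnx.2, fun m hm1 hm2 hm3 => g1 m hm3 hm1 hm2,
      fun j => ?_, ?_⟩
    · have hfin2 : Set.Finite {m : ℕ | (m.Prime ∨ x ^ δ < (m.minFac : ℝ)) ∧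
          (n : ℝ) + β j * Real.log x < m ∧ (m : ℝ) ≤ n + (β j + ε) * Real.log x} := by
        apply (Set.finite_Iic ⌊(n : ℝ) + (β j + ε) * Real.log x⌋₊).subset
        intro p hp
        exact Set.mem_Iic.mpr (Nat.le_floor hp.2.2)
      rw [Set.ncard_le_one hfin2]
      intro p hp p' hp'
      exact g2 j p p' hp.1 hp'.1 hp.2.1 hp.2.2 hp'.2.1 hp'.2.2
    · refine g3.trans ?_
      rw [← Set.ncard_coe_finset]
      have hfin3 : Set.Finite {p : ℕ | p.Prime ∧ n < p ∧ (p : ℝ) ≤ n + Λ * Real.log x} := by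
        apply (Set.finite_Iic ⌊(n : ℝ) + Λ * Real.log x⌋₊).subset
        intro p hp
        exact Set.mem_Iic.mpr (Nat.le_floor hp.2.2)
      apply Set.ncard_le_ncard _ hfin3
      intro p hp
      have hp' := Finset.mem_filter.mp (Finset.mem_coe.mp hp)
      have hp2 := Finset.mem_Ioc.mp hp'.1
      refine ⟨hp'.2, hp2.1, ?_⟩
      have h5 : (p : ℝ) ≤ ((n + ⌊Λ * Real.log x⌋₊ : ℕ) : ℝ) := by exact_mod_cast hp2.2
      push_cast at h5
      have h6 : ((⌊Λ * Real.log x⌋₊ : ℕ) : ℝ) ≤ Λ * Real.log x :=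
        Nat.floor_le (mul_nonneg hΛ hL)
      linarith
  exact_mod_cast Set.ncard_le_ncard hsub hfin

end Pool.Agent.Results.MP_f9960f_nt.GapPatterns
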